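import Pool.Agent.N356.SP.DefsK
import Pool.Agent.N263.LS.KS9
import Pool.Agent.N849.LS.KS10

/-! Project LK (helper356), GK12: the higher terms of the binomial expansion. -/

set_option autoImplicit false

namespace Pool.Agent.N952.LK

open Finset Pool.Agent.H384R3.SPk Pool.Agent.N356.SP
open Pool.Agent.N645.LS (cosp_cont)
open Pool.Agent.N263.LS (muf_cont wf_cont)

theorem lam_pos (k : ℕ) : 0 < lam k := by
  unfold lam
  have : 0 < (2 * k).choose k := Nat.choose_pos (by omega)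
  positivity

theorem amgm1 {k : ℕ} (hk : 1 ≤ k) {G l M : ℝ} (hl : 0 < l) (hM : 0 ≤ M) :
    l ^ ((1:ℝ) / k) * (G ^ (2 * k - 2) * M) ≤
      (1 - 1 / k) * G ^ (2 * k) + 1 / k * (l * M ^ k) := by
  have hk0 : (0:ℝ) < k := by exact_mod_cast hk
  have hk1 : (1:ℝ) ≤ k := by exact_mod_cast hk
  have hw : (0:ℝ) ≤ 1 - 1 / k := by
    rw [sub_nonneg, div_le_one hk0]
    exact hk1
  have hG : 0 ≤ G ^ (2 * k) := by
    rw [pow_mul]
    positivity
  have h := Real.geom_mean_le_arith_mean2_weighted (w₁ := 1 - 1 / (k:ℝ)) (w₂ := 1 / k)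
    (p₁ := G ^ (2 * k)) (p₂ := l * M ^ k) hw (by positivity) hG (by positivity) (by ring)
  have e1 : (G ^ (2 * k)) ^ (1 - 1 / (k:ℝ)) = G ^ (2 * k - 2) := by
    rw [pow_mul, ← Real.rpow_natCast (G ^ 2) k, ← Real.rpow_mul (sq_nonneg G)]
    have e : (k:ℝ) * (1 - 1 / k) = ((k - 1 : ℕ) : ℝ) := by
      rw [Nat.cast_sub hk]
      field_simp
      simp
    rw [e, Real.rpow_natCast, ← pow_mul]
    congr 1
    omega
  have e2 : (l * M ^ k) ^ (1 / (k:ℝ)) = l ^ ((1:ℝ) / k) * M := by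
    rw [Real.mul_rpow hl.le (by positivity)]
    congr 1
    rw [one_div, Real.pow_rpow_inv_natCast hM (by omega)]
  rw [e1, e2] at h
  calc l ^ ((1:ℝ) / k) * (G ^ (2 * k - 2) * M) = G ^ (2 * k - 2) * (l ^ ((1:ℝ) / k) * M) := by ring
    _ ≤ _ := h

theorem amgm2 {k j : ℕ} (hk : 2 ≤ k) (hj : 2 ≤ j) (hjk : j ≤ 2 * k) {a b α : ℝ} (ha : 0 ≤ a)
    (hb : 0 ≤ b) (hα : 0 < α) {u : ℝ} (hu : u = (2 * k - j) / (2 * k - 2)) :
    a ^ (2 * k - j) * b ^ j ≤
      α ^ (-u) * (u * (α * (a ^ (2 * k - 2) * b ^ 2)) + (1 - u) * b ^ (2 * k)) := by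
  have hk2 : (2:ℝ) ≤ k := by exact_mod_cast hk
  have hj2 : (2:ℝ) ≤ j := by exact_mod_cast hj
  have hjk' : (j:ℝ) ≤ 2 * k := by exact_mod_cast hjk
  have hden : (0:ℝ) < 2 * k - 2 := by linarith
  have hu0 : 0 ≤ u := by
    rw [hu]
    exact div_nonneg (by linarith) hden.le
  have hu1 : u ≤ 1 := by
    rw [hu, div_le_one hden]
    linarith
  have h := Real.geom_mean_le_arith_mean2_weighted (w₁ := u) (w₂ := 1 - u)
    (p₁ := α * (a ^ (2 * k - 2) * b ^ 2)) (p₂ := b ^ (2 * k)) hu0 (by linarith) (by positivity)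
    (by positivity) (by ring)
  have c1 : ((2 * k - 2 : ℕ) : ℝ) = 2 * k - 2 := by
    rw [Nat.cast_sub (by omega)]
    push_cast
    ring
  have c2 : ((2 * k - j : ℕ) : ℝ) = 2 * k - j := by
    rw [Nat.cast_sub hjk]
    push_cast
    ring
  have e1 : (α * (a ^ (2 * k - 2) * b ^ 2)) ^ u = α ^ u * (a ^ (2 * k - j) * b ^ (2 * u)) := by
    rw [Real.mul_rpow hα.le (by positivity), Real.mul_rpow (by positivity) (by positivity)]
    congr 2
    · rw [← Real.rpow_natCast, ← Real.rpow_mul ha, c1, hu, mul_div_cancel₀ _ hden.ne', ← c2,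
        Real.rpow_natCast]
    · rw [← Real.rpow_natCast, ← Real.rpow_mul hb]
      norm_num
  have e2 : (b ^ (2 * k)) ^ (1 - u) = b ^ ((2 * (k:ℝ)) * (1 - u)) := by
    rw [← Real.rpow_natCast, ← Real.rpow_mul hb]
    push_cast
    ring_nf
  have e3 : b ^ (2 * u) * b ^ ((2 * (k:ℝ)) * (1 - u)) = b ^ j := by
    rw [← Real.rpow_add_of_nonneg hb (by positivity)
      (mul_nonneg (by positivity) (by linarith)), ← Real.rpow_natCast]
    congr 1
    have h1 : (k:ℝ) - 1 ≠ 0 := by linarith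
    have h2 : 2 * (k:ℝ) - 2 = 2 * (k - 1) := by ring
    rw [hu, h2]
    field_simp
    ring
  rw [e1, e2] at h
  have h4 : α ^ u * (a ^ (2 * k - j) * b ^ j) ≤
      u * (α * (a ^ (2 * k - 2) * b ^ 2)) + (1 - u) * b ^ (2 * k) := by
    calc α ^ u * (a ^ (2 * k - j) * b ^ j)
        = α ^ u * (a ^ (2 * k - j) * (b ^ (2 * u) * b ^ ((2 * (k:ℝ)) * (1 - u)))) := by rw [e3]
      _ = α ^ u * (a ^ (2 * k - j) * b ^ (2 * u)) * b ^ ((2 * (k:ℝ)) * (1 - u)) := by ring
      _ ≤ _ := h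
  have h5 := mul_le_mul_of_nonneg_left h4 (Real.rpow_nonneg hα.le (-u))
  have h6 : α ^ (-u) * (α ^ u * (a ^ (2 * k - j) * b ^ j)) = a ^ (2 * k - j) * b ^ j := by
    rw [← mul_assoc, ← Real.rpow_add hα, neg_add_cancel, Real.rpow_zero, one_mul]
  rwa [h6] at h5

theorem pow_le_pK {k : ℕ} {μ z : ℝ} (hμ : 0 ≤ μ) (hz : 0 ≤ z) : μ ^ k ≤ pK k μ z := by
  unfold pK
  have h0 : (0:ℕ) ∈ range (k / 2 + 1) := by simp
  have h1 : ∀ j ∈ range (k / 2 + 1),
      0 ≤ ((k.choose (2 * j) : ℝ) * lam j) • (z ^ j * μ ^ (k - 2 * j)) := by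
    intro j _
    have := (lam_pos j).le
    rw [smul_eq_mul]
    positivity
  refine le_trans ?_ (Finset.single_le_sum h1 h0)
  simp [lam]

/-- `k c_k = C(2k, 2) λ^(-1/k)` -/
theorem k_cK {k : ℕ} (hk : 1 ≤ k) :
    (k:ℝ) * cK k = ((2 * k).choose 2 : ℝ) * (lam k ^ ((1:ℝ) / k))⁻¹ := by
  have hk0 : (0:ℝ) < k := by exact_mod_cast hk
  have hk1 : (1:ℝ) ≤ k := by exact_mod_cast hk
  have hC : (0:ℝ) < ((2 * k).choose k : ℝ) := by
    exact_mod_cast Nat.choose_pos (by omega : k ≤ 2 * k)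
  have hx : (0:ℝ) ≤ 2 * (2 * (k:ℝ) - 1) := by linarith
  have e1 : cK k = 2 * (2 * (k:ℝ) - 1) / ((2 * k).choose k : ℝ) ^ ((1:ℝ) / k) := by
    unfold cK
    rw [Real.div_rpow (by positivity) hC.le]
    congr 1
    rw [one_div, Real.pow_rpow_inv_natCast hx (by omega)]
  have e2 : lam k ^ ((1:ℝ) / k) = ((2 * k).choose k : ℝ) ^ ((1:ℝ) / k) / 2 := by
    unfold lam
    rw [Real.div_rpow hC.le (by positivity)]
    congr 1
    rw [one_div, Real.pow_rpow_inv_natCast (by norm_num) (by omega)]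
  have e3 : ((2 * k).choose 2 : ℝ) = k * (2 * k - 1) := by
    rw [Nat.cast_choose_two]
    push_cast
    ring
  have hpos : (0:ℝ) < ((2 * k).choose k : ℝ) ^ ((1:ℝ) / k) := Real.rpow_pos_of_pos hC _
  rw [e1, e2, e3]
  field_simp

/-- the bound is exact -/
theorem TK_eq {k j : ℕ} (hk : 2 ≤ k) {t : ℝ} (ht : 0 ≤ t) {u : ℝ}
    (hu : u = (2 * k - j) / (2 * k - 2)) :
    TK k j (k * cK k * t ^ 2) =
      ((2 * k).choose j : ℝ) * t ^ j * (lam k ^ ((1:ℝ) / k)) ^ (-u) := by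
  have hl := lam_pos k
  have hk2 : (2:ℝ) ≤ k := by exact_mod_cast hk
  have hk0 : (0:ℝ) < k := by linarith
  have hden : (0:ℝ) < 2 * k - 2 := by linarith
  have hC2 : (0:ℝ) < ((2 * k).choose 2 : ℝ) := by
    exact_mod_cast Nat.choose_pos (by omega : 2 ≤ 2 * k)
  have hb : 0 < lam k ^ ((1:ℝ) / k) := Real.rpow_pos_of_pos hl _
  unfold TK
  rw [k_cK (by omega), Real.mul_rpow (by positivity) (by positivity),
    Real.mul_rpow hC2.le (by positivity), ← Real.rpow_neg_one (lam k ^ ((1:ℝ) / k)),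
    ← Real.rpow_mul hb.le, ← Real.rpow_mul hl.le, ← Real.rpow_mul hl.le]
  have e1 : (t ^ 2 : ℝ) ^ ((j:ℝ) / 2) = t ^ j := by
    rw [← Real.rpow_natCast t 2, ← Real.rpow_mul ht, ← Real.rpow_natCast]
    congr 1
    push_cast
    ring
  have e2 : ((2 * k).choose 2 : ℝ) ^ (-(j:ℝ) / 2) * ((2 * k).choose 2 : ℝ) ^ ((j:ℝ) / 2) = 1 := by
    rw [← Real.rpow_add hC2]
    have : -(j:ℝ) / 2 + (j:ℝ) / 2 = 0 := by ring
    rw [this, Real.rpow_zero]
  have e3 : lam k ^ (((j:ℝ) - 2) / (2 * (k - 1))) * lam k ^ ((1:ℝ) / k * (-1 * ((j:ℝ) / 2))) =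
      lam k ^ ((1:ℝ) / k * (-u)) := by
    rw [← Real.rpow_add hl]
    congr 1
    have h1 : (k:ℝ) - 1 ≠ 0 := by linarith
    have h2 : 2 * (k:ℝ) - 2 = 2 * (k - 1) := by ring
    rw [hu, h2]
    field_simp
    ring
  rw [e1]
  calc ((2 * k).choose j : ℝ) * ((2 * k).choose 2 : ℝ) ^ (-(j:ℝ) / 2) *
        lam k ^ (((j:ℝ) - 2) / (2 * (k - 1))) *
        (((2 * k).choose 2 : ℝ) ^ ((j:ℝ) / 2) * lam k ^ ((1:ℝ) / k * (-1 * ((j:ℝ) / 2))) * t ^ j)
      = ((2 * k).choose j : ℝ) * t ^ j *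
        (((2 * k).choose 2 : ℝ) ^ (-(j:ℝ) / 2) * ((2 * k).choose 2 : ℝ) ^ ((j:ℝ) / 2)) *
        (lam k ^ (((j:ℝ) - 2) / (2 * (k - 1))) * lam k ^ ((1:ℝ) / k * (-1 * ((j:ℝ) / 2)))) := by
        ring
    _ = _ := by
        rw [e2, e3, mul_one]

/-- GK12: the higher terms -/
theorem Tj_le
    (pK_int : ∀ {m : ℕ} {C : Finset (ZMod m)} {θ : ZMod m → ZMod m → ℝ} {f : ℤ →₀ ℝ},
      GoodC C θ → ∀ {k : ℕ}, OrdC k C → (∀ n, 0 ≤ f n) →
      (∀ n ∈ f.support, ((n : ℤ) : ZMod m) ∈ C) →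
      lam k * (∫ x in (0:ℝ)..1, pK k (muf C f x) (16 / 81 * wf C θ f x)) ≤ Mc k f)
    {m : ℕ} {C : Finset (ZMod m)} {θ : ZMod m → ZMod m → ℝ} {g f : ℤ →₀ ℝ}
    {k : ℕ} (hk : 6 ≤ k) (h : GoodC C θ) (ho : OrdC k C) (hg0 : ∀ n, 0 ≤ g n)
    (hf0 : ∀ n, 0 ≤ f n) (hg : ∀ n ∈ g.support, ((n : ℤ) : ZMod m) = 0)
    (hf : ∀ n ∈ f.support, ((n : ℤ) : ZMod m) ∈ C) (hG : Mc k g ≤ ((2 * k).choose k : ℝ))
    (hF : Mc k f ≤ ((2 * k).choose k : ℝ)) {t : ℝ} (ht : 0 ≤ t) {j : ℕ} (hj : 4 ≤ j)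
    (hjk : j ≤ 2 * k) :
    ((2 * k).choose j : ℝ) * t ^ j * AJ (2 * k - j) j g f ≤
      ((2 * k).choose k : ℝ) * TK k j (k * cK k * t ^ 2) := by
  have hl := lam_pos k
  have hk2 : (6:ℝ) ≤ k := by exact_mod_cast hk
  have hk0 : (0:ℝ) < k := by linarith
  have hj2 : (4:ℝ) ≤ j := by exact_mod_cast hj
  have hjk' : (j:ℝ) ≤ 2 * k := by exact_mod_cast hjk
  have hden : (0:ℝ) < 2 * k - 2 := by linarith
  have hΛ : (0:ℝ) < ((2 * k).choose k : ℝ) := by
    exact_mod_cast Nat.choose_pos (by omega : k ≤ 2 * k)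
  set Λ : ℝ := ((2 * k).choose k : ℝ) with hΛd
  set β : ℝ := lam k ^ ((1:ℝ) / k) with hβd
  have hβ : 0 < β := Real.rpow_pos_of_pos hl _
  have hmc : Continuous (muf C f) := muf_cont
  have hwc : Continuous (wf C θ f) := wf_cont
  have hgc : Continuous (cosp g) := cosp_cont g
  have hfc : Continuous (cosp f) := cosp_cont f
  have hm0 : ∀ x, 0 ≤ muf C f x := fun x => Finset.sum_nonneg fun c _ => by positivity
  have hw0 : ∀ x, 0 ≤ wf C θ f x := fun x => Finset.sum_nonneg fun c _ => by positivity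
  have hpc : Continuous fun x => pK k (muf C f x) (16 / 81 * wf C θ f x) := by
    unfold pK
    refine continuous_finsetSum _ fun j _ => ?_
    simp only [smul_eq_mul]
    exact continuous_const.mul (((continuous_const.mul hwc).pow j).mul (hmc.pow _))
  -- the moment of `μ`
  have h1 : lam k * (∫ x in (0:ℝ)..1, muf C f x ^ k) ≤ Λ := by
    refine le_trans (mul_le_mul_of_nonneg_left ?_ hl.le) ((pK_int h ho hf0 hf).trans hF)
    refine intervalIntegral.integral_mono_on (by norm_num) ((hmc.pow k).intervalIntegrable _ _)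
      (hpc.intervalIntegrable _ _) fun x _ => ?_
    exact pow_le_pK (hm0 x) (mul_nonneg (by norm_num) (hw0 x))
  -- the second mixed moment
  have h2 : β * AJ (2 * k - 2) 2 g f ≤ Λ := by
    rw [Pool.Agent.N849.LS.AJ2_eq h.neg hg0 hf0 hg hf, ← intervalIntegral.integral_const_mul]
    have hi : ∫ x in (0:ℝ)..1, β * (cosp g x ^ (2 * k - 2) * muf C f x) ≤
        ∫ x in (0:ℝ)..1, ((1 - 1 / (k:ℝ)) * cosp g x ^ (2 * k) +
          1 / (k:ℝ) * (lam k * muf C f x ^ k)) := by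
      refine intervalIntegral.integral_mono_on (by norm_num)
        ((continuous_const.mul ((hgc.pow _).mul hmc)).intervalIntegrable _ _)
        (((continuous_const.mul (hgc.pow _)).add
          (continuous_const.mul (continuous_const.mul (hmc.pow k)))).intervalIntegrable _ _)
        fun x _ => ?_
      exact amgm1 (by omega) hl (hm0 x)
    refine hi.trans ?_
    have hI1 : IntervalIntegrable (fun x => (1 - 1 / (k:ℝ)) * cosp g x ^ (2 * k))
        MeasureTheory.volume 0 1 := (continuous_const.mul (hgc.pow _)).intervalIntegrable _ _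
    have hI2 : IntervalIntegrable (fun x => 1 / (k:ℝ) * (lam k * muf C f x ^ k))
        MeasureTheory.volume 0 1 :=
      (continuous_const.mul (continuous_const.mul (hmc.pow k))).intervalIntegrable _ _
    rw [intervalIntegral.integral_add hI1 hI2,
      intervalIntegral.integral_const_mul, intervalIntegral.integral_const_mul,
      intervalIntegral.integral_const_mul]
    have h3 : (0:ℝ) ≤ 1 - 1 / k := by
      rw [sub_nonneg, div_le_one hk0]
      linarith
    have h4 : (0:ℝ) ≤ 1 / k := by positivity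
    have h5 := mul_le_mul_of_nonneg_left hG h3
    have h6 := mul_le_mul_of_nonneg_left h1 h4
    unfold Mc at h5
    calc _ ≤ (1 - 1 / (k:ℝ)) * Λ + 1 / k * Λ := add_le_add h5 h6
      _ = Λ := by ring
  -- the higher mixed moments
  set u : ℝ := (2 * k - j) / (2 * k - 2) with hu
  have hu0 : 0 ≤ u := div_nonneg (by linarith) hden.le
  have hu1 : u ≤ 1 := by
    rw [hu, div_le_one hden]
    linarith
  have h3 : AJ (2 * k - j) j g f ≤ β ^ (-u) * Λ := by
    have hi : AJ (2 * k - j) j g f ≤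
        ∫ x in (0:ℝ)..1, β ^ (-u) * (u * (β * (cosp g x ^ (2 * k - 2) * cosp f x ^ 2)) +
          (1 - u) * cosp f x ^ (2 * k)) := by
      unfold AJ
      refine intervalIntegral.integral_mono_on (by norm_num)
        (((hgc.pow _).mul (hfc.pow _)).intervalIntegrable _ _)
        ((continuous_const.mul ((continuous_const.mul (continuous_const.mul
          ((hgc.pow _).mul (hfc.pow _)))).add
          (continuous_const.mul (hfc.pow _)))).intervalIntegrable _ _)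
        fun x _ => ?_
      have h7 := amgm2 (k := k) (j := j) (by omega) (by omega) hjk (abs_nonneg (cosp g x))
        (abs_nonneg (cosp f x)) hβ hu
      have e1 : |cosp g x| ^ (2 * k - 2) = cosp g x ^ (2 * k - 2) :=
        Even.pow_abs ⟨k - 1, by omega⟩ _
      have e2 : |cosp f x| ^ (2 * k) = cosp f x ^ (2 * k) := Even.pow_abs ⟨k, by omega⟩ _
      rw [e1, e2, sq_abs] at h7
      refine le_trans ?_ h7
      rw [← abs_pow, ← abs_pow, ← abs_mul]
      exact le_abs_self _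
    refine hi.trans ?_
    have hI1 : IntervalIntegrable
        (fun x => u * (β * (cosp g x ^ (2 * k - 2) * cosp f x ^ 2)))
        MeasureTheory.volume 0 1 := (continuous_const.mul (continuous_const.mul
        ((hgc.pow _).mul (hfc.pow _)))).intervalIntegrable _ _
    have hI2 : IntervalIntegrable (fun x => (1 - u) * cosp f x ^ (2 * k))
        MeasureTheory.volume 0 1 :=
      (continuous_const.mul (hfc.pow _)).intervalIntegrable _ _
    rw [intervalIntegral.integral_const_mul, intervalIntegral.integral_add hI1 hI2,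
      intervalIntegral.integral_const_mul, intervalIntegral.integral_const_mul,
      intervalIntegral.integral_const_mul]
    refine mul_le_mul_of_nonneg_left ?_ (Real.rpow_nonneg hβ.le _)
    have h5 := mul_le_mul_of_nonneg_left h2 hu0
    have h6 := mul_le_mul_of_nonneg_left hF (show 0 ≤ 1 - u by linarith)
    unfold AJ at h5
    unfold Mc at h6
    calc _ ≤ u * Λ + (1 - u) * Λ := add_le_add h5 h6
      _ = Λ := by ring
  rw [TK_eq (by omega) ht hu]
  calc ((2 * k).choose j : ℝ) * t ^ j * AJ (2 * k - j) j g f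
      ≤ ((2 * k).choose j : ℝ) * t ^ j * (β ^ (-u) * Λ) :=
        mul_le_mul_of_nonneg_left h3 (by positivity)
    _ = _ := by ring

end Pool.Agent.N952.LK
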